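import Pool.Agent.N882.SP.Main

/-! The theorem on the Schur functors of a motive. -/

set_option autoImplicit false

open Finset Filter Topology Complex Polynomial ComplexConjugate

namespace Pool.Agent.N882.SP

open Pool.Agent.H341R2 (E K2 lam E_const_mul E_sum E_le E_nonneg E_add lam_tendsto
  lam_bounded w_nonneg summable_E summable_prime_rpow)

theorem tens_norm {s t : Multiset ℂ} {a b : ℝ} (hs : ∀ z ∈ s, ‖z‖ = a) (ht : ∀ z ∈ t, ‖z‖ = b) :
    ∀ z ∈ tens s t, ‖z‖ = a * b := by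
  intro z hz
  unfold tens at hz
  obtain ⟨x, hx, rfl⟩ := Multiset.mem_map.1 hz
  rw [Multiset.mem_product] at hx
  rw [norm_mul, hs _ hx.1, ht _ hx.2]

theorem tens_card (s t : Multiset ℂ) :
    Multiset.card (tens s t) = Multiset.card s * Multiset.card t := by
  unfold tens
  rw [Multiset.card_map, Multiset.card_product]

/-- the motive `M ⊗ M'` -/
noncomputable def tensM (M M' : Motive) : Motive where
  weight := M.weight + M'.weight
  rank := M.rank * M'.rank
  frob p := tens (M.frob p) (M'.frob p)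
  pure := by
    filter_upwards [M.pure, M'.pure] with p h1 h2
    refine ⟨fun z hz => ?_, by rw [tens_card, h1.2, h2.2]⟩
    rw [tens_norm h1.1 h2.1 z hz, ← Real.rpow_add (ppos p)]
    congr 1
    push_cast
    ring

theorem nt_tens (M M' : Motive) : ∀ᶠ p : Nat.Primes in cofinite,
    nt (tensM M M') p = nt M p * nt M' p := by
  filter_upwards [nt_ev M, nt_ev M', nt_ev (tensM M M')] with p h1 h2 h3
  rw [h1, h2, h3]
  have e : ((tensM M M').frob p).sum = (M.frob p).sum * (M'.frob p).sum := sum_product _ _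
  have e2 : ((tensM M M').weight : ℝ) = M.weight + M'.weight := by
    show ((M.weight + M'.weight : ℤ) : ℝ) = _
    push_cast
    rfl
  rw [e, norm_mul, e2, Real.rpow_add (ppos p), mul_pow, div_mul_div_comm]

/-- the `L`-function of `End(M)` -/
theorem log_M (M : Motive) {B : Nat.Primes → ℂ[X]} (hB : IsEuler (fun p => endo (M.frob p)) B) :
    ∃ C : ℝ, ∀ᶠ ε : ℝ in 𝓝[>] 0, LFun B (1 + ε) ≠ 0 ∧
      |Real.log ‖LFun B (1 + ε)‖ - E ε (nt M)| ≤ C :=
  log_end M.pure hB (nt_abs M) (nt_ev M)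

theorem E_nt_nonneg (M : Motive) (ε : ℝ) : 0 ≤ E ε (nt M) := E_nonneg (nt_nonneg M)

/-- comparison for the Schur functors, twisted by a motive -/
theorem compare (H : Motive) {l : ℕ} (hl : l ≤ H.rank) (m : Fin l → ℕ)
    (S : (Fin l → ℕ) → Motive) (hS : ∀ mu ∈ box H.rank m, IsSchurFunctor H mu (S mu))
    (H' : Motive) : ∀ᶠ p : Nat.Primes in cofinite,
      nt H' p ≤ (wt H.rank l : ℝ) * ∑ mu ∈ box H.rank m, nt (tensM (S mu) H') p := by
  have h1 := pointwise H hl m S hS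
  have h2 := (Filter.eventually_all_finset (box H.rank m)).2 fun mu _ => nt_ev (S mu)
  have h3 := (Filter.eventually_all_finset (box H.rank m)).2 fun mu _ => nt_tens (S mu) H'
  filter_upwards [h1, h2, h3] with p g1 g2 g3
  rw [Finset.sum_congr rfl g3, ← Finset.sum_mul, ← mul_assoc]
  have g4 : 1 ≤ (wt H.rank l : ℝ) * ∑ mu ∈ box H.rank m, nt (S mu) p := by
    rw [Finset.sum_congr rfl g2]
    exact g1
  calc nt H' p = 1 * nt H' p := (one_mul _).symm
    _ ≤ _ := mul_le_mul_of_nonneg_right g4 (nt_nonneg H' p)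

theorem compare_E (H : Motive) {l : ℕ} (hl : l ≤ H.rank) (m : Fin l → ℕ)
    (S : (Fin l → ℕ) → Motive) (hS : ∀ mu ∈ box H.rank m, IsSchurFunctor H mu (S mu))
    (H' : Motive) : ∃ C : ℝ, ∀ ε : ℝ, 0 < ε →
      E ε (nt H') ≤ (wt H.rank l : ℝ) * ∑ mu ∈ box H.rank m, E ε (nt (tensM (S mu) H')) + C :=
  E_compare (box H.rank m) (nt_nonneg H') (fun _ _ => nt_nonneg _) (nt_le H')
    (fun _ _ => nt_le _) (Nat.cast_nonneg _) (compare H hl m S hS H')

/-- from the sums over primes to the sizes -/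
theorem size_ineq {κ : Type} (K : Finset κ) (M : κ → Motive) {B : κ → Nat.Primes → ℂ[X]}
    (hB : ∀ k ∈ K, IsEuler (fun p => endo ((M k).frob p)) (B k)) {W : ℝ} (hW : 0 ≤ W)
    {f : ℝ → ℝ} (hf : ∃ C : ℝ, ∀ ε : ℝ, 0 < ε → f ε ≤ W * ∑ k ∈ K, E ε (nt (M k)) + C)
    {η : ℝ} (hη : 0 < η) : ∀ᶠ ε : ℝ in 𝓝[>] 0,
      f ε / Real.log (1 / ε) ≤ W * ∑ k ∈ K, size (B k) ε + η ∧ ∀ k ∈ K, -η ≤ size (B k) ε := by
  classical
  obtain ⟨C, hC⟩ := hf
  have h1 : ∀ k : κ, ∃ C : ℝ, 0 ≤ C ∧ (k ∈ K → ∀ᶠ ε : ℝ in 𝓝[>] 0,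
      |Real.log ‖LFun (B k) (1 + ε)‖ - E ε (nt (M k))| ≤ C) := by
    intro k
    by_cases hk : k ∈ K
    · obtain ⟨C', hC'⟩ := log_M (M k) (hB k hk)
      refine ⟨|C'|, abs_nonneg _, fun _ => ?_⟩
      filter_upwards [hC'] with ε h
      exact h.2.trans (le_abs_self _)
    · exact ⟨0, le_rfl, fun h => absurd h hk⟩
  choose D hD0 hD using h1
  have h2 := (Filter.eventually_all_finset K).2 fun k hk => hD k hk
  have h3 : ∀ᶠ ε : ℝ in 𝓝[>] 0, (W * ∑ k ∈ K, D k + C) / Real.log (1 / ε) < η :=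
    (log_inv_tendsto.const_div_atTop _).eventually_lt_const hη
  have h4 : ∀ᶠ ε : ℝ in 𝓝[>] 0, ∀ k ∈ K, D k / Real.log (1 / ε) < η :=
    (Filter.eventually_all_finset K).2 fun k _ =>
      (log_inv_tendsto.const_div_atTop _).eventually_lt_const hη
  filter_upwards [h2, h3, h4, log_inv_tendsto.eventually_gt_atTop 0, self_mem_nhdsWithin]
    with ε g2 g3 g4 g5 g6
  have hε : (0 : ℝ) < ε := g6
  constructor
  · have g7 := hC ε hε
    have g8 : ∑ k ∈ K, E ε (nt (M k)) ≤ ∑ k ∈ K, Real.log ‖LFun (B k) (1 + ε)‖ + ∑ k ∈ K, D k := by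
      rw [← Finset.sum_add_distrib]
      refine Finset.sum_le_sum fun k hk => ?_
      linarith [(abs_le.1 (g2 k hk)).1]
    have g9 : f ε ≤ W * ∑ k ∈ K, Real.log ‖LFun (B k) (1 + ε)‖ + (W * ∑ k ∈ K, D k + C) := by
      have := mul_le_mul_of_nonneg_left g8 hW
      rw [mul_add] at this
      linarith
    have e : W * ∑ k ∈ K, size (B k) ε =
        (W * ∑ k ∈ K, Real.log ‖LFun (B k) (1 + ε)‖) / Real.log (1 / ε) := by
      unfold size
      rw [← Finset.sum_div, mul_div_assoc]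
    rw [e]
    calc f ε / Real.log (1 / ε) ≤
        (W * ∑ k ∈ K, Real.log ‖LFun (B k) (1 + ε)‖ + (W * ∑ k ∈ K, D k + C)) /
          Real.log (1 / ε) := div_le_div_of_nonneg_right g9 g5.le
      _ = (W * ∑ k ∈ K, Real.log ‖LFun (B k) (1 + ε)‖) / Real.log (1 / ε) +
          (W * ∑ k ∈ K, D k + C) / Real.log (1 / ε) := add_div _ _ _
      _ ≤ _ := by linarith
  · intro k hk
    have g7 := (abs_le.1 (g2 k hk)).1
    have g8 := E_nt_nonneg (M k) ε
    have g9 : -(D k / Real.log (1 / ε)) ≤ size (B k) ε := by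
      unfold size
      rw [← neg_div]
      exact div_le_div_of_nonneg_right (by linarith) g5.le
    linarith [g4 k hk]

/-- from the sizes to the orders -/
theorem order_ineq {κ : Type} (K : Finset κ) {B : κ → Nat.Primes → ℂ[X]} {W : ℝ}
    {g : ℝ → ℝ} {x : ℝ} (hg : Tendsto g (𝓝[>] 0) (𝓝 x))
    (h : ∀ η : ℝ, 0 < η → ∀ᶠ ε : ℝ in 𝓝[>] 0,
      g ε ≤ W * ∑ k ∈ K, size (B k) ε + η ∧ ∀ k ∈ K, -η ≤ size (B k) ε)
    {r : κ → ℤ} (hr : ∀ k ∈ K, HasOrder (B k) (-(r k))) :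
    x ≤ W * ∑ k ∈ K, (r k : ℝ) ∧ ∀ k ∈ K, 0 ≤ r k := by
  have h1 : Tendsto (fun ε => W * ∑ k ∈ K, size (B k) ε) (𝓝[>] 0) (𝓝 (W * ∑ k ∈ K, (r k : ℝ))) :=
    (tendsto_finsetSum _ fun k hk => size_order (hr k hk)).const_mul W
  constructor
  · refine le_of_forall_pos_le_add fun η hη => ?_
    refine le_of_tendsto_of_tendsto hg (h1.add_const η) ?_
    filter_upwards [h η hη] with ε g1
    exact g1.1
  · intro k hk
    have h2 : (0 : ℝ) ≤ r k := by
      refine le_of_forall_pos_le_add fun η hη => ?_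
      have h3 : -η ≤ (r k : ℝ) := by
        refine ge_of_tendsto (size_order (hr k hk)) ?_
        filter_upwards [h η hη] with ε g1
        exact g1.2 k hk
      linarith
    exact_mod_cast h2

/-- if the sum over the primes diverges, the `L`-function tends to infinity -/
theorem norm_tendsto (M : Motive)
    (h : ¬ Summable fun p : Nat.Primes => nt M p * (p : ℝ) ^ (-1 : ℝ))
    {B : Nat.Primes → ℂ[X]} (hB : IsEuler (fun p => endo (M.frob p)) B) :
    Tendsto (fun ε : ℝ => ‖LFun B (1 + ε)‖) (𝓝[>] 0) atTop := by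
  obtain ⟨C, hC⟩ := log_M M hB
  have h1 := E_tendsto (nt_nonneg M) (nt_le M) h
  have h2 : Tendsto (fun ε : ℝ => Real.exp (E ε (nt M) - C)) (𝓝[>] 0) atTop :=
    Real.tendsto_exp_atTop.comp (tendsto_atTop_add_const_right _ _ h1)
  refine tendsto_atTop_mono' _ ?_ h2
  filter_upwards [hC] with ε g
  have h3 : 0 < ‖LFun B (1 + ε)‖ := norm_pos_iff.2 g.1
  rw [← Real.le_log_iff_exp_le h3]
  linarith [(abs_le.1 g.2).1]

/-- if the sum over the primes converges, the `L`-function is bounded -/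
theorem norm_bounded (M : Motive)
    (h : Summable fun p : Nat.Primes => nt M p * (p : ℝ) ^ (-1 : ℝ))
    {B : Nat.Primes → ℂ[X]} (hB : IsEuler (fun p => endo (M.frob p)) B) :
    ¬ Tendsto (fun ε : ℝ => ‖LFun B (1 + ε)‖) (𝓝[>] 0) atTop := by
  intro ht
  obtain ⟨C, hC⟩ := log_M M hB
  have h1 : ∀ᶠ ε : ℝ in 𝓝[>] 0, ‖LFun B (1 + ε)‖ ≤
      Real.exp (∑' p : Nat.Primes, nt M p * (p : ℝ) ^ (-1 : ℝ) + C) := by
    filter_upwards [hC, self_mem_nhdsWithin] with ε g g'
    have hε : (0 : ℝ) < ε := g'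
    have h2 := E_le_tsum (nt_nonneg M) (nt_le M) h hε
    have h3 : 0 < ‖LFun B (1 + ε)‖ := norm_pos_iff.2 g.1
    rw [← Real.log_le_iff_le_exp h3]
    linarith [(abs_le.1 g.2).2]
  obtain ⟨ε, h2, h3⟩ := (h1.and (ht.eventually_gt_atTop
    (Real.exp (∑' p : Nat.Primes, nt M p * (p : ℝ) ^ (-1 : ℝ) + C)))).exists
  linarith

/-- the Dirichlet series does not converge absolutely at the edge -/
theorem not_summable_trace (M : Motive)
    (h : ¬ Summable fun p : Nat.Primes => nt M p * (p : ℝ) ^ (-1 : ℝ)) :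
    ¬ Summable fun p : Nat.Primes => ‖(M.frob p).sum‖ / (p : ℝ) ^ ((M.weight : ℝ) / 2 + 1) := by
  intro hs
  apply h
  have h1 := hs.mul_left (M.rank : ℝ)
  refine Summable.of_norm_bounded_eventually h1 ?_
  filter_upwards [M.pure, nt_ev M] with p hp h2
  have hp0 := ppos p
  have hq : (0 : ℝ) < (p : ℝ) ^ ((M.weight : ℝ) / 2) := Real.rpow_pos_of_pos hp0 _
  rw [Real.norm_of_nonneg (mul_nonneg (nt_nonneg M p) (Real.rpow_nonneg hp0.le _)), h2,
    Real.rpow_add hp0, Real.rpow_one, Real.rpow_neg_one, ← rpow_half_sq]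
  have h3 := norm_trace_le M hp
  have e1 : ‖(M.frob p).sum‖ ^ 2 / ((p : ℝ) ^ ((M.weight : ℝ) / 2)) ^ 2 * ((p : ℕ) : ℝ)⁻¹ =
      (‖(M.frob p).sum‖ / (p : ℝ) ^ ((M.weight : ℝ) / 2)) *
        (‖(M.frob p).sum‖ / ((p : ℝ) ^ ((M.weight : ℝ) / 2) * (p : ℕ))) := by
    field_simp
  rw [e1]
  refine mul_le_mul_of_nonneg_right ?_ (by positivity)
  rw [div_le_iff₀ hq]
  exact h3

/-- existence of a partition in the box with a singularity at the edge -/
theorem exists_sing (H : Motive) {l : ℕ} (hl : l ≤ H.rank) (m : Fin l → ℕ)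
    (S : (Fin l → ℕ) → Motive) (hS : ∀ mu ∈ box H.rank m, IsSchurFunctor H mu (S mu))
    (H' : Motive) (h : ¬ Summable fun p : Nat.Primes => nt H' p * (p : ℝ) ^ (-1 : ℝ)) :
    ∃ mu ∈ box H.rank m,
      ¬ Summable fun p : Nat.Primes => nt (tensM (S mu) H') p * (p : ℝ) ^ (-1 : ℝ) := by
  by_contra hcon
  push Not at hcon
  apply h
  have h1 : Summable fun p : Nat.Primes => (wt H.rank l : ℝ) *
      ∑ mu ∈ box H.rank m, nt (tensM (S mu) H') p * (p : ℝ) ^ (-1 : ℝ) :=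
    (summable_sum fun mu hmu => hcon mu hmu).mul_left _
  refine Summable.of_norm_bounded_eventually h1 ?_
  filter_upwards [compare H hl m S hS H'] with p hp
  have hp0 := ppos p
  rw [Real.norm_of_nonneg (mul_nonneg (nt_nonneg H' p) (Real.rpow_nonneg hp0.le _)),
    ← Finset.sum_mul, ← mul_assoc]
  exact mul_le_mul_of_nonneg_right hp (Real.rpow_nonneg hp0.le _)

/-- the unit motive `ℚ(0)` -/
noncomputable def unitM : Motive where
  weight := 0
  rank := 1
  frob _ := {1}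
  pure := by
    refine Filter.Eventually.of_forall fun p => ⟨fun z hz => ?_, by simp⟩
    rw [Multiset.mem_singleton] at hz
    rw [hz]
    simp

theorem nt_unit (p : Nat.Primes) : nt unitM p = 1 := by
  unfold nt
  rw [if_pos]
  · simp [unitM]
  · refine ⟨fun z hz => ?_, by simp [unitM]⟩
    have : z = 1 := by simpa [unitM] using hz
    rw [this]
    simp [unitM]

theorem frob_unit (M : Motive) (p : Nat.Primes) : (tensM M unitM).frob p = M.frob p := tens_one _

theorem nt_tens_unit (M : Motive) : nt (tensM M unitM) = nt M := by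
  funext p
  unfold nt
  have e2 : (tensM M unitM).weight = M.weight := add_zero _
  have e3 : (tensM M unitM).rank = M.rank := mul_one _
  rw [frob_unit, e2, e3]

theorem unit_not_summable :
    ¬ Summable fun p : Nat.Primes => nt unitM p * (p : ℝ) ^ (-1 : ℝ) := by
  intro h
  apply Nat.Primes.not_summable_one_div
  refine h.congr fun p => ?_
  rw [nt_unit, one_mul, Real.rpow_neg_one, one_div]

theorem tendsto_iff (M : Motive) {B : Nat.Primes → ℂ[X]}
    (hB : IsEuler (fun p => endo (M.frob p)) B) :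
    Tendsto (fun ε : ℝ => ‖LFun B (1 + ε)‖) (𝓝[>] 0) atTop ↔
      ¬ Summable fun p : Nat.Primes => nt M p * (p : ℝ) ^ (-1 : ℝ) :=
  ⟨fun h hs => norm_bounded M hs hB h, fun h => norm_tendsto M h hB⟩

theorem main (H : Motive) (l : ℕ) (hl : l ≤ H.rank) (m : Fin l → ℕ)
    (S : (Fin l → ℕ) → Motive) (hS : ∀ lam ∈ box H.rank m, IsSchurFunctor H lam (S lam)) :
    (∀ᶠ p : Nat.Primes in cofinite, 1 ≤ (wt H.rank l : ℝ) * ∑ lam ∈ box H.rank m,
      ‖((S lam).frob p).sum‖ ^ 2 / (p : ℝ) ^ ((S lam).weight : ℝ)) ∧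
    (∃ lam ∈ box H.rank m,
      (¬ Summable fun p : Nat.Primes =>
        ‖((S lam).frob p).sum‖ / (p : ℝ) ^ (((S lam).weight : ℝ) / 2 + 1)) ∧
      ∀ B : Nat.Primes → ℂ[X], IsEuler (fun p => endo ((S lam).frob p)) B →
        Tendsto (fun ε : ℝ => ‖LFun B (1 + ε)‖) (𝓝[>] 0) atTop) ∧
    (∀ B : (Fin l → ℕ) → Nat.Primes → ℂ[X],
      (∀ lam ∈ box H.rank m, IsEuler (fun p => endo ((S lam).frob p)) (B lam)) →
      (∀ η : ℝ, 0 < η → ∀ᶠ ε : ℝ in 𝓝[>] 0,
        1 ≤ (wt H.rank l : ℝ) * ∑ lam ∈ box H.rank m, size (B lam) ε + η) ∧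
      ∀ r : (Fin l → ℕ) → ℤ, (∀ lam ∈ box H.rank m, HasOrder (B lam) (-(r lam))) →
        (∀ lam ∈ box H.rank m, 0 ≤ r lam) ∧ ∃ lam ∈ box H.rank m, 1 ≤ r lam) ∧
    (∀ (H' : Motive) (B' : Nat.Primes → ℂ[X]) (B : (Fin l → ℕ) → Nat.Primes → ℂ[X]),
      IsEuler (fun p => endo (H'.frob p)) B' →
      (∀ lam ∈ box H.rank m,
        IsEuler (fun p => endo (tens ((S lam).frob p) (H'.frob p))) (B lam)) →
      (∀ η : ℝ, 0 < η → ∀ᶠ ε : ℝ in 𝓝[>] 0,
        size B' ε ≤ (wt H.rank l : ℝ) * ∑ lam ∈ box H.rank m, size (B lam) ε + η) ∧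
      (∀ (r' : ℤ) (r : (Fin l → ℕ) → ℤ), HasOrder B' (-r') →
        (∀ lam ∈ box H.rank m, HasOrder (B lam) (-(r lam))) →
        r' ≤ (wt H.rank l : ℤ) * ∑ lam ∈ box H.rank m, r lam) ∧
      (Tendsto (fun ε : ℝ => ‖LFun B' (1 + ε)‖) (𝓝[>] 0) atTop ↔
        ∃ lam ∈ box H.rank m,
          Tendsto (fun ε : ℝ => ‖LFun (B lam) (1 + ε)‖) (𝓝[>] 0) atTop)) := by
  refine ⟨pointwise H hl m S hS, ?_, ?_, ?_⟩
  · obtain ⟨mu, hmu, h⟩ := exists_sing H hl m S hS unitM unit_not_summable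
    rw [nt_tens_unit] at h
    exact ⟨mu, hmu, not_summable_trace _ h, fun B hB => norm_tendsto _ h hB⟩
  · intro B hB
    have h0 : ∃ C : ℝ, ∀ ε : ℝ, 0 < ε →
        Pool.Agent.H341R2.lam ε ≤ (wt H.rank l : ℝ) * ∑ mu ∈ box H.rank m, E ε (nt (S mu)) + C := by
      obtain ⟨C, hC⟩ := compare_E H hl m S hS unitM
      refine ⟨C, fun ε hε => ?_⟩
      have h1 := hC ε hε
      simp only [nt_tens_unit] at h1
      have h2 : E ε (nt unitM) = Pool.Agent.H341R2.lam ε := by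
        rw [← E_one]
        congr 1
        funext p
        exact nt_unit p
      rw [h2] at h1
      exact h1
    have h1 : ∀ η : ℝ, 0 < η → ∀ᶠ ε : ℝ in 𝓝[>] 0,
        Pool.Agent.H341R2.lam ε / Real.log (1 / ε) ≤
          (wt H.rank l : ℝ) * ∑ mu ∈ box H.rank m, size (B mu) ε + η ∧
          ∀ mu ∈ box H.rank m, -η ≤ size (B mu) ε := fun η hη =>
      size_ineq (box H.rank m) S hB (Nat.cast_nonneg _) h0 hη
    refine ⟨fun η hη => ?_, fun r hr => ?_⟩
    · filter_upwards [h1 (η / 2) (half_pos hη), lam_log.eventually_const_lt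
        (show 1 - η / 2 < 1 by linarith)] with ε g1 g2
      linarith [g1.1]
    · obtain ⟨g1, g2⟩ := order_ineq (box H.rank m) lam_log h1 hr
      refine ⟨g2, ?_⟩
      by_contra hcon
      push Not at hcon
      have h3 : ∀ mu ∈ box H.rank m, (r mu : ℝ) = 0 := by
        intro mu hmu
        have := g2 mu hmu
        have := hcon mu hmu
        have : r mu = 0 := by omega
        rw [this, Int.cast_zero]
      rw [Finset.sum_eq_zero h3, mul_zero] at g1
      linarith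
  · intro H' B' B hB' hB
    have hB1 : ∀ mu ∈ box H.rank m, IsEuler (fun p => endo ((tensM (S mu) H').frob p)) (B mu) := hB
    obtain ⟨C1, hC1⟩ := compare_E H hl m S hS H'
    obtain ⟨C2, hC2⟩ := log_M H' hB'
    have h1 : ∀ η : ℝ, 0 < η → ∀ᶠ ε : ℝ in 𝓝[>] 0,
        size B' ε ≤ (wt H.rank l : ℝ) * ∑ mu ∈ box H.rank m, size (B mu) ε + η ∧
          ∀ mu ∈ box H.rank m, -η ≤ size (B mu) ε := by
      intro η hη
      have h2 := size_ineq (box H.rank m) (fun mu => tensM (S mu) H') hB1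
        (Nat.cast_nonneg (wt H.rank l)) (f := fun ε => E ε (nt H')) ⟨C1, hC1⟩ (half_pos hη)
      have h3 : ∀ᶠ ε : ℝ in 𝓝[>] 0, C2 / Real.log (1 / ε) < η / 2 :=
        (log_inv_tendsto.const_div_atTop _).eventually_lt_const (half_pos hη)
      filter_upwards [h2, h3, hC2, log_inv_tendsto.eventually_gt_atTop 0] with ε g1 g2 g3 g4
      refine ⟨?_, fun mu hmu => by linarith [g1.2 mu hmu]⟩
      have g5 : size B' ε ≤ E ε (nt H') / Real.log (1 / ε) + C2 / Real.log (1 / ε) := by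
        unfold size
        rw [← add_div]
        exact div_le_div_of_nonneg_right (by linarith [(abs_le.1 g3.2).2]) g4.le
      linarith [g1.1]
    refine ⟨fun η hη => ?_, fun r' r hr' hr => ?_, ?_⟩
    · filter_upwards [h1 η hη] with ε g
      exact g.1
    · have h2 := (order_ineq (box H.rank m) (size_order hr') h1 hr).1
      exact_mod_cast h2
    · rw [tendsto_iff H' hB']
      constructor
      · intro h
        obtain ⟨mu, hmu, h2⟩ := exists_sing H hl m S hS H' h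
        exact ⟨mu, hmu, (tendsto_iff (tensM (S mu) H') (hB1 mu hmu)).2 h2⟩
      · rintro ⟨mu, hmu, h2⟩ hs
        refine (tendsto_iff (tensM (S mu) H') (hB1 mu hmu)).1 h2 ?_
        refine Summable.of_norm_bounded_eventually (hs.mul_left (((S mu).rank : ℝ) ^ 2)) ?_
        filter_upwards [nt_tens (S mu) H'] with p hp
        have hp0 := ppos p
        rw [Real.norm_of_nonneg (mul_nonneg (nt_nonneg _ p) (Real.rpow_nonneg hp0.le _)), hp,
          mul_assoc]
        exact mul_le_mul_of_nonneg_right (nt_le _ p)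
          (mul_nonneg (nt_nonneg H' p) (Real.rpow_nonneg hp0.le _))

end Pool.Agent.N882.SP
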