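import Pool.Agent.N882.SP.Schur

/-!
# Schur functors of a motive: definitions

`S_lam(H)`, for a partition `lam` with at most `l` parts, is the Schur functor of a motive `H`, for
example `Sym^k(H)` for `l = 1` and `lam = (k)`.  The files are about the `L`-functions of the motives
`End(S_lam(H) ⊗ H')`, of weight `0`, at the edge `s = 1` of the half-plane of absolute convergence.
-/

set_option autoImplicit false

namespace Pool.Agent.N882.SP

open Filter Topology Polynomial

/-- The cohomology `H = H^w(M)` of a motive `M` over `ℚ` in one degree, as far as the Frobenius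
eigenvalues at almost all primes are concerned: `frob p` is the multiset of the eigenvalues of the
geometric Frobenius at `p`, it has `rank` elements, and they have absolute value `p^{w/2}`,
`w = weight`.  By the theorem of Deligne every Chow motive `M = (X, π, r)` over `ℚ` and every integer
`w` give such data, for every choice of the auxiliary primes `ℓ_p`: `rank` is the dimension of
`H^w(M)`, and almost all `p` are primes of good reduction of `X`. -/
structure Motive where
  weight : ℤ
  rank : ℕ
  frob : Nat.Primes → Multiset ℂ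
  pure : ∀ᶠ p : Nat.Primes in cofinite, (∀ z ∈ frob p, ‖z‖ = (p : ℝ) ^ ((weight : ℝ) / 2)) ∧
    Multiset.card (frob p) = rank

/-- `M = S_lam(H)`: the weight of `M` is `|lam|` times the weight of `H`, and for almost all `p` and
all `k ≥ 1` the trace of `Frob_p^k` on `M` is the Schur function `s_lam(α_1^k, …, α_N^k)` of the `k`-th
powers of the eigenvalues `α_1, …, α_N` of Frobenius on `H`.  (These traces determine the multiset of
the eigenvalues on `M`.) -/
def IsSchurFunctor (H : Motive) {l : ℕ} (lam : Fin l → ℕ) (M : Motive) : Prop :=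
  M.weight = (∑ i, (lam i : ℤ)) * H.weight ∧
  ∀ᶠ p : Nat.Primes in cofinite, ∀ k : ℕ, 1 ≤ k →
    ((M.frob p).map fun z => z ^ k).sum =
      schur (fun i => (lam i : ℤ)) ((H.frob p).map fun z => z ^ k)

/-- the eigenvalues on `V ⊗ W` -/
def tens (s t : Multiset ℂ) : Multiset ℂ := (s ×ˢ t).map fun z => z.1 * z.2

/-- the eigenvalues on `End(V) = V ⊗ V^∨` -/
noncomputable def endo (s : Multiset ℂ) : Multiset ℂ := (s ×ˢ s).map fun z => z.1 / z.2

/-- The polynomials `B p`, `p` prime, are the Euler factors of an `L`-function of weight `0`.  For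
almost all `p`, `B_p(z) = ∏ (1 - α z)`, the product over the multiset `δ p` of the eigenvalues of
Frobenius at `p`.  At the other primes `B p` is an arbitrary polynomial, and no factor
`1 / B_p(p^{-s})` has a pole at `s = 1`. -/
def IsEuler (δ : Nat.Primes → Multiset ℂ) (B : Nat.Primes → ℂ[X]) : Prop :=
  (∀ᶠ p : Nat.Primes in cofinite, ∀ z : ℂ, (B p).eval z = ((δ p).map fun α => 1 - α * z).prod) ∧
  ∀ p : Nat.Primes, (B p).eval ((p : ℂ) ^ (-1 : ℂ)) ≠ 0

/-- The Euler product `∏_p B_p(p^{-s})⁻¹`. -/
noncomputable def LFun (B : Nat.Primes → ℂ[X]) (s : ℂ) : ℂ :=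
  ∏' p : Nat.Primes, ((B p).eval ((p : ℂ) ^ (-s)))⁻¹

/-- `log |L(1 + ε)| / log(1/ε)` -/
noncomputable def size (B : Nat.Primes → ℂ[X]) (ε : ℝ) : ℝ :=
  Real.log ‖LFun B (1 + ε)‖ / Real.log (1 / ε)

/-- `r` is the order of `L(s)` at `s = 1`: the function `(s - 1)^{-r} L(s)` has a finite nonzero limit
as real `s → 1+`.  If `L(s)` continues to a meromorphic function in a neighbourhood of `1`, this is
its order (positive for a zero, negative for a pole). -/
def HasOrder (B : Nat.Primes → ℂ[X]) (r : ℤ) : Prop :=
  ∃ a : ℂ, a ≠ 0 ∧ Tendsto (fun ε : ℝ => (ε : ℂ) ^ (-r) * LFun B (1 + ε)) (𝓝[>] 0) (𝓝 a)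

end Pool.Agent.N882.SP
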