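import Pool.Agent.N882.SP.Size

/-! The traces of Frobenius on the Schur functors of a motive, and the proof of the theorem. -/

set_option autoImplicit false

open Finset Filter Topology Complex Polynomial ComplexConjugate

namespace Pool.Agent.N882.SP

open Pool.Agent.H341R2 (E K2 lam E_const_mul E_sum E_le E_nonneg E_add lam_tendsto
  lam_bounded w_nonneg summable_E summable_prime_rpow)

theorem sum_product (s t : Multiset ℂ) :
    ((s ×ˢ t).map fun z => z.1 * z.2).sum = s.sum * t.sum := by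
  induction s using Multiset.induction_on with
  | empty => simp
  | cons a s ih =>
    rw [Multiset.cons_product, Multiset.map_add, Multiset.sum_add, ih, Multiset.map_map,
      Multiset.sum_cons, add_mul]
    congr 1
    simp only [Function.comp_def]
    rw [Multiset.sum_map_mul_left, Multiset.map_id']

theorem sum_quot (s t : Multiset ℂ) :
    ((s ×ˢ t).map fun z => z.1 / z.2).sum = s.sum * (t.map fun z => z⁻¹).sum := by
  induction s using Multiset.induction_on with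
  | empty => simp
  | cons a s ih =>
    rw [Multiset.cons_product, Multiset.map_add, Multiset.sum_add, ih, Multiset.map_map,
      Multiset.sum_cons, add_mul]
    congr 1
    simp only [Function.comp_def, div_eq_mul_inv]
    rw [Multiset.sum_map_mul_left]

theorem endo_sum {u : Multiset ℂ} {q : ℝ} (hq : 0 < q) (hu : ∀ z ∈ u, ‖z‖ = q) :
    (endo u).sum = ((‖u.sum‖ ^ 2 / q ^ 2 : ℝ) : ℂ) := by
  unfold endo
  rw [sum_quot]
  have h1 : (u.map fun z => z⁻¹) = u.map fun z => ((q ^ 2 : ℝ) : ℂ)⁻¹ * conj z := by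
    refine Multiset.map_congr rfl fun z hz => ?_
    have h2 : z * conj z = ((q ^ 2 : ℝ) : ℂ) := by
      rw [Complex.mul_conj, Complex.normSq_eq_norm_sq, hu z hz]
    have hz0 : z ≠ 0 := by
      intro h0
      have := hu z hz
      rw [h0, norm_zero] at this
      exact hq.ne this
    have hq2 : ((q ^ 2 : ℝ) : ℂ) ≠ 0 := by
      rw [Complex.ofReal_ne_zero]
      positivity
    rw [← h2] at hq2 ⊢
    field_simp
    rw [div_self (right_ne_zero_of_mul hq2)]
  rw [h1, Multiset.sum_map_mul_left]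
  have h3 : (u.map fun z => conj z).sum = conj u.sum := by
    rw [map_multiset_sum]
  rw [h3, mul_left_comm, Complex.mul_conj, Complex.normSq_eq_norm_sq]
  push_cast
  rw [div_eq_inv_mul]

theorem endo_norm {u : Multiset ℂ} {q : ℝ} (hq : 0 < q) (hu : ∀ z ∈ u, ‖z‖ = q) :
    ∀ z ∈ endo u, ‖z‖ = 1 := by
  intro z hz
  unfold endo at hz
  obtain ⟨x, hx, rfl⟩ := Multiset.mem_map.1 hz
  rw [Multiset.mem_product] at hx
  rw [norm_div, hu _ hx.1, hu _ hx.2, div_self hq.ne']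

theorem endo_card (u : Multiset ℂ) : Multiset.card (endo u) = Multiset.card u * Multiset.card u := by
  unfold endo
  rw [Multiset.card_map, Multiset.card_product]

theorem tens_one (s : Multiset ℂ) : tens s {1} = s := by
  unfold tens
  induction s using Multiset.induction_on with
  | empty => simp
  | cons a s ih =>
    rw [Multiset.cons_product, Multiset.map_add, ih]
    simp

theorem ppos (p : Nat.Primes) : (0 : ℝ) < (p : ℕ) := by exact_mod_cast p.2.pos

/-- the `L`-function of `End(V)`, in terms of the squares of the traces -/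
theorem log_end {u : Nat.Primes → Multiset ℂ} {w : ℤ} {R : ℕ}
    (hu : ∀ᶠ p : Nat.Primes in cofinite, (∀ z ∈ u p, ‖z‖ = (p : ℝ) ^ ((w : ℝ) / 2)) ∧
      Multiset.card (u p) = R) {B : Nat.Primes → ℂ[X]} (hB : IsEuler (fun p => endo (u p)) B)
    {φ : Nat.Primes → ℝ} {C0 : ℝ} (hφ : ∀ p, |φ p| ≤ C0)
    (he : ∀ᶠ p : Nat.Primes in cofinite, φ p = ‖(u p).sum‖ ^ 2 / (p : ℝ) ^ (w : ℝ)) :
    ∃ C : ℝ, ∀ᶠ ε : ℝ in 𝓝[>] 0, LFun B (1 + ε) ≠ 0 ∧
      |Real.log ‖LFun B (1 + ε)‖ - E ε φ| ≤ C := by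
  refine log_gen hB (Mb := R * R) ?_ hφ ?_
  · filter_upwards [hu] with p hp
    refine ⟨endo_norm (Real.rpow_pos_of_pos (ppos p) _) hp.1, ?_⟩
    rw [endo_card, hp.2]
  · filter_upwards [hu, he] with p hp h2
    rw [endo_sum (Real.rpow_pos_of_pos (ppos p) _) hp.1, Complex.ofReal_re, h2]
    congr 1
    rw [← Real.rpow_natCast, ← Real.rpow_mul (ppos p).le]
    congr 1
    push_cast
    ring

/-- the square of the normalised trace -/
noncomputable def nt (M : Motive) (p : Nat.Primes) : ℝ :=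
  open Classical in if (∀ z ∈ M.frob p, ‖z‖ = (p : ℝ) ^ ((M.weight : ℝ) / 2)) ∧
    Multiset.card (M.frob p) = M.rank then ‖(M.frob p).sum‖ ^ 2 / (p : ℝ) ^ (M.weight : ℝ) else 0

theorem nt_nonneg (M : Motive) (p : Nat.Primes) : 0 ≤ nt M p := by
  unfold nt
  split_ifs
  · have := ppos p
    positivity
  · exact le_rfl

theorem rpow_half_sq (p : Nat.Primes) (w : ℝ) : ((p : ℝ) ^ (w / 2)) ^ 2 = (p : ℝ) ^ w := by
  rw [← Real.rpow_natCast, ← Real.rpow_mul (ppos p).le]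
  congr 1
  push_cast
  ring

theorem norm_trace_le (M : Motive) {p : Nat.Primes}
    (h : (∀ z ∈ M.frob p, ‖z‖ = (p : ℝ) ^ ((M.weight : ℝ) / 2)) ∧
    Multiset.card (M.frob p) = M.rank) :
    ‖(M.frob p).sum‖ ≤ M.rank * (p : ℝ) ^ ((M.weight : ℝ) / 2) := by
  have h1 := norm_msum (M.frob p) (fun z => z) _ fun z hz => (h.1 z hz).le
  rwa [Multiset.map_id', h.2] at h1

theorem nt_le (M : Motive) (p : Nat.Primes) : nt M p ≤ (M.rank : ℝ) ^ 2 := by
  unfold nt
  split_ifs with h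
  · have hp : (0 : ℝ) < (p : ℝ) ^ (M.weight : ℝ) := Real.rpow_pos_of_pos (ppos p) _
    rw [div_le_iff₀ hp, ← rpow_half_sq, ← mul_pow]
    exact pow_le_pow_left₀ (norm_nonneg _) (norm_trace_le M h) 2
  · positivity

theorem nt_abs (M : Motive) (p : Nat.Primes) : |nt M p| ≤ (M.rank : ℝ) ^ 2 := by
  rw [abs_of_nonneg (nt_nonneg M p)]
  exact nt_le M p

theorem nt_ev (M : Motive) : ∀ᶠ p : Nat.Primes in cofinite,
    nt M p = ‖(M.frob p).sum‖ ^ 2 / (p : ℝ) ^ (M.weight : ℝ) := by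
  filter_upwards [M.pure] with p hp
  unfold nt
  rw [if_pos hp]

/-- the traces on the Schur functors of the partitions in a box are not all small -/
theorem pointwise (H : Motive) {l : ℕ} (hl : l ≤ H.rank) (m : Fin l → ℕ)
    (S : (Fin l → ℕ) → Motive) (hS : ∀ mu ∈ box H.rank m, IsSchurFunctor H mu (S mu)) :
    ∀ᶠ p : Nat.Primes in cofinite, 1 ≤ (wt H.rank l : ℝ) *
      ∑ mu ∈ box H.rank m, ‖((S mu).frob p).sum‖ ^ 2 / (p : ℝ) ^ ((S mu).weight : ℝ) := by
  have h1 := (Filter.eventually_all_finset (box H.rank m)).2 fun mu hmu => (hS mu hmu).2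
  filter_upwards [H.pure, h1] with p hp h2
  set q : ℝ := (p : ℝ) ^ ((H.weight : ℝ) / 2) with hq
  have hq0 : 0 < q := Real.rpow_pos_of_pos (ppos p) _
  have hqc : (q : ℂ) ≠ 0 := by
    rw [Complex.ofReal_ne_zero]
    exact hq0.ne'
  set s : Multiset ℂ := (H.frob p).map fun z => (q : ℂ)⁻¹ * z with hs
  have hs1 : ∀ z ∈ s, ‖z‖ = 1 := by
    intro z hz
    obtain ⟨x, hx, rfl⟩ := Multiset.mem_map.1 hz
    rw [norm_mul, norm_inv, Complex.norm_real, Real.norm_of_nonneg hq0.le, hp.1 x hx,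
      inv_mul_cancel₀ hq0.ne']
  have hs2 : H.frob p = s.map fun z => (q : ℂ) * z := by
    rw [hs, Multiset.map_map]
    conv_lhs => rw [← Multiset.map_id (H.frob p)]
    refine Multiset.map_congr rfl fun z _ => ?_
    simp only [Function.comp_apply, id]
    rw [mul_inv_cancel_left₀ hqc]
  have hs3 : Multiset.card s = H.rank := by
    rw [hs, Multiset.card_map, hp.2]
  have h3 := box_ge s hs1 (l := l) (by rw [hs3]; exact hl) m
  rw [hs3] at h3
  refine h3.trans (le_of_eq ?_)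
  congr 1
  refine Finset.sum_congr rfl fun mu hmu => ?_
  have h4 := h2 mu hmu 1 le_rfl
  simp only [pow_one, Multiset.map_id'] at h4
  have hw := (hS mu hmu).1
  rw [h4, hs2, schur_scale hqc, norm_mul, norm_zpow, Complex.norm_real,
    Real.norm_of_nonneg hq0.le, mul_pow, hw]
  have h5 : (q ^ (∑ i, (mu i : ℤ))) ^ 2 = (p : ℝ) ^ (((∑ i, (mu i : ℤ)) * H.weight : ℤ) : ℝ) := by
    rw [hq, ← Real.rpow_intCast, ← Real.rpow_mul (ppos p).le, ← Real.rpow_natCast,
      ← Real.rpow_mul (ppos p).le]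
    congr 1
    push_cast
    ring
  rw [h5, mul_div_assoc, mul_comm, div_mul_cancel₀]
  exact (Real.rpow_pos_of_pos (ppos p) _).ne'

theorem E_mono {ε : ℝ} (hε : 0 < ε) {φ ψ : Nat.Primes → ℝ} {B B' : ℝ} (hφ : ∀ p, |φ p| ≤ B)
    (hψ : ∀ p, |ψ p| ≤ B') (h : ∀ p, φ p ≤ ψ p) : E ε φ ≤ E ε ψ := by
  unfold E
  exact Summable.tsum_le_tsum (fun p => mul_le_mul_of_nonneg_right (h p) (w_nonneg ε p))
    (summable_E hε hφ) (summable_E hε hψ)

/-- comparison of the sums over the primes -/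
theorem E_compare {κ : Type} (K : Finset κ) {ψ : Nat.Primes → ℝ} {φ : κ → Nat.Primes → ℝ} {C0 : ℝ}
    {C1 : κ → ℝ} (hψ0 : ∀ p, 0 ≤ ψ p) (hφ0 : ∀ k ∈ K, ∀ p, 0 ≤ φ k p)
    (hψ : ∀ p, ψ p ≤ C0) (hφ : ∀ k ∈ K, ∀ p, φ k p ≤ C1 k) {W : ℝ} (hW : 0 ≤ W)
    (h : ∀ᶠ p : Nat.Primes in cofinite, ψ p ≤ W * ∑ k ∈ K, φ k p) :
    ∃ C : ℝ, ∀ ε : ℝ, 0 < ε → E ε ψ ≤ W * ∑ k ∈ K, E ε (φ k) + C := by
  classical
  set bad : Nat.Primes → ℝ := fun p => if ψ p ≤ W * ∑ k ∈ K, φ k p then 0 else ψ p with hbad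
  have hb1 : ∀ p, |bad p| ≤ C0 := by
    intro p
    rw [hbad]
    simp only
    split_ifs
    · rw [abs_zero]
      exact (hψ0 p).trans (hψ p)
    · rw [abs_of_nonneg (hψ0 p)]
      exact hψ p
  have hb2 : {p | bad p ≠ 0}.Finite := by
    refine (eventually_cofinite.1 h).subset fun p hp => ?_
    intro h0
    apply hp
    rw [hbad]
    simp only
    rw [if_pos h0]
  have hφa : ∀ k ∈ K, ∀ p, |φ k p| ≤ C1 k := fun k hk p => by
    rw [abs_of_nonneg (hφ0 k hk p)]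
    exact hφ k hk p
  have hsum : ∀ p, |∑ k ∈ K, φ k p| ≤ ∑ k ∈ K, C1 k := fun p =>
    (Finset.abs_sum_le_sum_abs _ _).trans (Finset.sum_le_sum fun k hk => hφa k hk p)
  have hWs : ∀ p, |W * ∑ k ∈ K, φ k p| ≤ W * ∑ k ∈ K, C1 k := fun p => by
    rw [abs_mul, abs_of_nonneg hW]
    exact mul_le_mul_of_nonneg_left (hsum p) hW
  refine ⟨hb2.toFinset.card * C0, fun ε hε => ?_⟩
  have h1 : E ε ψ ≤ E ε (fun p => W * ∑ k ∈ K, φ k p + bad p) := by
    refine E_mono hε (B := C0) (B' := W * ∑ k ∈ K, C1 k + C0) (fun p => ?_) (fun p => ?_)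
      fun p => ?_
    · rw [abs_of_nonneg (hψ0 p)]
      exact hψ p
    · exact (abs_add_le _ _).trans (add_le_add (hWs p) (hb1 p))
    · rw [hbad]
      simp only
      split_ifs with h0
      · rw [add_zero]
        exact h0
      · have : 0 ≤ W * ∑ k ∈ K, φ k p := mul_nonneg hW (Finset.sum_nonneg fun k hk => hφ0 k hk p)
        linarith
  rw [E_add hε hWs hb1, E_const_mul, E_sum hε K φ C1 hφa] at h1
  have h2 := E_fin hb1 hb2 hε
  linarith [(abs_le.1 h2).2]

/-- if `∑ φ(p)/p` diverges, then `∑ φ(p) p^{-1-ε}` tends to infinity -/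
theorem E_tendsto {φ : Nat.Primes → ℝ} {C0 : ℝ} (h0 : ∀ p, 0 ≤ φ p) (hφ : ∀ p, φ p ≤ C0)
    (h : ¬ Summable fun p : Nat.Primes => φ p * (p : ℝ) ^ (-1 : ℝ)) :
    Tendsto (fun ε : ℝ => E ε φ) (𝓝[>] 0) atTop := by
  have hnn : ∀ p : Nat.Primes, 0 ≤ φ p * (p : ℝ) ^ (-1 : ℝ) := fun p =>
    mul_nonneg (h0 p) (Real.rpow_nonneg (ppos p).le _)
  rw [tendsto_atTop]
  intro C
  have h1 : ∃ F : Finset Nat.Primes, C + 1 ≤ ∑ p ∈ F, φ p * (p : ℝ) ^ (-1 : ℝ) := by
    by_contra hcon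
    simp only [not_exists, not_le] at hcon
    exact h (summable_of_sum_le (c := C + 1) hnn fun F => (hcon F).le)
  obtain ⟨F, hF⟩ := h1
  have h2 : Tendsto (fun ε : ℝ => ∑ p ∈ F, φ p * (p : ℝ) ^ (-(1 + ε))) (𝓝[>] 0)
      (𝓝 (∑ p ∈ F, φ p * (p : ℝ) ^ (-1 : ℝ))) := by
    refine tendsto_finsetSum _ fun p _ => Tendsto.const_mul _ ?_
    have h3 : Continuous fun ε : ℝ => ((p : ℕ) : ℝ) ^ (-(1 + ε)) := by
      refine Continuous.rpow continuous_const (by fun_prop) fun x => Or.inl (ppos p).ne'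
    have h4 := h3.tendsto 0
    simp only [add_zero] at h4
    exact h4.mono_left nhdsWithin_le_nhds
  filter_upwards [h2.eventually_const_lt (show C < _ by linarith), self_mem_nhdsWithin]
    with ε h5 h6
  have hε : (0 : ℝ) < ε := h6
  refine h5.le.trans ?_
  unfold E
  exact (summable_E hε fun p => (abs_of_nonneg (h0 p)).trans_le (hφ p)).sum_le_tsum F
    fun p _ => mul_nonneg (h0 p) (w_nonneg ε p)

theorem E_le_tsum {φ : Nat.Primes → ℝ} {C0 : ℝ} (h0 : ∀ p, 0 ≤ φ p) (hφ : ∀ p, φ p ≤ C0)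
    (h : Summable fun p : Nat.Primes => φ p * (p : ℝ) ^ (-1 : ℝ)) {ε : ℝ} (hε : 0 < ε) :
    E ε φ ≤ ∑' p : Nat.Primes, φ p * (p : ℝ) ^ (-1 : ℝ) := by
  unfold E
  refine Summable.tsum_le_tsum (fun p => ?_)
    (summable_E hε fun p => (abs_of_nonneg (h0 p)).trans_le (hφ p)) h
  refine mul_le_mul_of_nonneg_left ?_ (h0 p)
  exact Real.rpow_le_rpow_of_exponent_le (by exact_mod_cast p.2.one_lt.le) (by linarith)

end Pool.Agent.N882.SP
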