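import Mathlib

/-!
# Schur functions of numbers of absolute value one

`h_k(s)` is the complete homogeneous symmetric function of a multiset `s` of complex numbers and
`schur lam s = det (h_{lam i - i + j}(s))` the Schur function (formula of Jacobi and Trudi).  If all
elements of `s` have absolute value one, the Schur functions of the partitions in a box cannot all be
small.
-/

set_option autoImplicit false

namespace Pool.Agent.N882.SP

open Finset PowerSeries

/-- `∏ (1 + α X + α² X² + ⋯)`, the product over the elements `α` of `s` -/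
noncomputable def gen (s : Multiset ℂ) : PowerSeries ℂ :=
  (s.map fun α => PowerSeries.mk fun n => α ^ n).prod

/-- The complete homogeneous symmetric function `h_k(s)`, the sum of all monomials of degree `k`:
the coefficient of `X^k` in `∏ (1 + α X + α² X² + ⋯)`, for `k ≥ 0`, and `0` for `k < 0`. -/
noncomputable def hz (s : Multiset ℂ) (k : ℤ) : ℂ :=
  if 0 ≤ k then PowerSeries.coeff k.toNat (gen s) else 0

/-- The Schur function of the partition `lam` (with at most `l` parts) of the elements of `s`. -/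
noncomputable def schur {l : ℕ} (lam : Fin l → ℤ) (s : Multiset ℂ) : ℂ :=
  Matrix.det (Matrix.of fun i j : Fin l => hz s (lam i - i + j))

/-- `∏ (1 - α X)` -/
noncomputable def pol (s : Multiset ℂ) : PowerSeries ℂ :=
  (s.map fun α => 1 - PowerSeries.C α * PowerSeries.X).prod

theorem geom_mul (a : ℂ) :
    (PowerSeries.mk fun n => a ^ n) * (1 - PowerSeries.C a * PowerSeries.X) = 1 := by
  ext n
  rw [mul_sub, mul_one, mul_left_comm, map_sub, coeff_C_mul]
  cases n with
  | zero => simp
  | succ n =>
    rw [coeff_succ_mul_X, coeff_mk, coeff_mk, coeff_one, if_neg (Nat.succ_ne_zero n)]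
    ring

theorem gen_mul_pol (s : Multiset ℂ) : gen s * pol s = 1 := by
  unfold gen pol
  rw [← Multiset.prod_map_mul]
  simp only [geom_mul]
  simp

theorem gen_cons (a : ℂ) (s : Multiset ℂ) :
    gen (a ::ₘ s) = (PowerSeries.mk fun n => a ^ n) * gen s := by
  unfold gen
  rw [Multiset.map_cons, Multiset.prod_cons]

theorem gen_cons_pol (a : ℂ) (s : Multiset ℂ) :
    pol s * gen (a ::ₘ s) = PowerSeries.mk fun n => a ^ n := by
  rw [gen_cons, mul_left_comm, mul_comm (pol s), gen_mul_pol, mul_one]

theorem gen_cons_sub (a : ℂ) (s : Multiset ℂ) :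
    gen (a ::ₘ s) - PowerSeries.C a * (PowerSeries.X * gen (a ::ₘ s)) = gen s := by
  have h := geom_mul a
  rw [gen_cons]
  calc (PowerSeries.mk fun n => a ^ n) * gen s -
        PowerSeries.C a * (PowerSeries.X * ((PowerSeries.mk fun n => a ^ n) * gen s))
      = ((PowerSeries.mk fun n => a ^ n) * (1 - PowerSeries.C a * PowerSeries.X)) * gen s := by ring
    _ = gen s := by rw [h, one_mul]

/-- `h_k(a, s) - a h_{k-1}(a, s) = h_k(s)` -/
theorem hz_sub (a : ℂ) (s : Multiset ℂ) (k : ℤ) :
    hz (a ::ₘ s) k - a * hz (a ::ₘ s) (k - 1) = hz s k := by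
  unfold hz
  rcases lt_trichotomy k 0 with hk | hk | hk
  · rw [if_neg (by omega), if_neg (by omega), if_neg (by omega)]
    ring
  · subst hk
    rw [if_pos le_rfl, if_neg (by omega), if_pos le_rfl]
    have h := congrArg (PowerSeries.coeff 0) (gen_cons_sub a s)
    rw [map_sub, coeff_C_mul, coeff_zero_X_mul] at h
    simpa using h
  · rw [if_pos hk.le, if_pos (by omega), if_pos hk.le]
    obtain ⟨n, rfl⟩ : ∃ n : ℕ, k = n + 1 := ⟨(k - 1).toNat, by omega⟩
    have h := congrArg (PowerSeries.coeff (n + 1)) (gen_cons_sub a s)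
    rw [map_sub, coeff_C_mul, coeff_succ_X_mul] at h
    have e1 : ((n : ℤ) + 1).toNat = n + 1 := by omega
    have e2 : ((n : ℤ) + 1 - 1).toNat = n := by omega
    rw [e1, e2, h]

/-- the coefficients of `∏ (1 - α X)` -/
noncomputable def cf (s : Multiset ℂ) (r : ℕ) : ℂ := PowerSeries.coeff r (pol s)

theorem norm_cf (s : Multiset ℂ) (hs : ∀ z ∈ s, ‖z‖ ≤ 1) (r : ℕ) :
    ‖cf s r‖ ≤ (Multiset.card s).choose r := by
  induction s using Multiset.induction_on generalizing r with
  | empty =>
    unfold cf pol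
    rw [Multiset.map_zero, Multiset.prod_zero, coeff_one, Multiset.card_zero]
    cases r with
    | zero => simp
    | succ n => simp
  | cons a s ih =>
    have h1 : ‖a‖ ≤ 1 := hs a (Multiset.mem_cons_self a s)
    have h2 := ih fun z hz => hs z (Multiset.mem_cons_of_mem hz)
    have e : pol (a ::ₘ s) = pol s - PowerSeries.C a * (PowerSeries.X * pol s) := by
      unfold pol
      rw [Multiset.map_cons, Multiset.prod_cons]
      ring
    unfold cf
    rw [e, map_sub, coeff_C_mul, Multiset.card_cons]
    cases r with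
    | zero =>
      rw [coeff_zero_X_mul, mul_zero, sub_zero]
      have := h2 0
      unfold cf at this
      simpa using this
    | succ r =>
      rw [coeff_succ_X_mul, Nat.choose_succ_succ]
      refine (norm_sub_le _ _).trans ?_
      rw [norm_mul]
      have h3 := h2 (r + 1)
      have h4 := h2 r
      unfold cf at h3 h4
      have h5 : ‖a‖ * ‖coeff r (pol s)‖ ≤ 1 * ((Multiset.card s).choose r : ℝ) :=
        mul_le_mul h1 h4 (norm_nonneg _) zero_le_one
      push_cast
      linarith

/-- `∑ (-1)^r e_r(s) h_{k-r}(a, s) = a^k` -/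
theorem sum_cf (a : ℂ) (s : Multiset ℂ) (hs : ∀ z ∈ s, ‖z‖ ≤ 1) (k : ℕ) :
    ∑ r ∈ Finset.range (Multiset.card s + 1), cf s r * hz (a ::ₘ s) ((k : ℤ) - r) = a ^ k := by
  have h := congrArg (PowerSeries.coeff k) (gen_cons_pol a s)
  rw [coeff_mul, coeff_mk, Finset.Nat.sum_antidiagonal_eq_sum_range_succ_mk] at h
  rw [← h]
  have e1 : ∀ n : ℕ, ∑ r ∈ Finset.range (n + 1), cf s r * hz (a ::ₘ s) ((k : ℤ) - r) =
      ∑ r ∈ Finset.range (n + 1), (if r ≤ k then cf s r * coeff (k - r) (gen (a ::ₘ s)) else 0) := by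
    intro n
    refine Finset.sum_congr rfl fun r _ => ?_
    unfold hz
    split_ifs with h1 h2 h2
    · congr 3
      omega
    · omega
    · omega
    · rw [mul_zero]
  rw [e1]
  have e2 : ∑ r ∈ Finset.range (k + 1), coeff r (pol s) * coeff (k - r) (gen (a ::ₘ s)) =
      ∑ r ∈ Finset.range (k + 1), (if r ≤ k then cf s r * coeff (k - r) (gen (a ::ₘ s)) else 0) := by
    refine Finset.sum_congr rfl fun r hr => ?_
    rw [if_pos (by rw [Finset.mem_range] at hr; omega)]
    rfl
  simp only
  rw [e2]
  have hc : ∀ r, Multiset.card s < r → cf s r = 0 := by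
    intro r hr
    have := norm_cf s hs r
    rw [Nat.choose_eq_zero_of_lt hr, Nat.cast_zero] at this
    exact norm_le_zero_iff.1 this
  rcases le_total k (Multiset.card s) with hk | hk
  · symm
    refine Finset.sum_subset (fun r hr => ?_) fun r _ hr => ?_
    · rw [Finset.mem_range] at *
      omega
    · rw [Finset.mem_range] at hr
      rw [if_neg (by omega)]
  · refine Finset.sum_subset (fun r hr => ?_) fun r _ hr => ?_
    · rw [Finset.mem_range] at *
      omega
    · rw [Finset.mem_range] at hr
      rw [hc r (by omega)]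
      simp

/-- expansion of the first row: the sum of the Schur functions with the first part in a window -/
theorem schur_step {l : ℕ} (lam : Fin l → ℤ) (a : ℂ) (s : Multiset ℂ) (hs : ∀ z ∈ s, ‖z‖ ≤ 1)
    (k : ℕ) :
    ∑ r ∈ Finset.range (Multiset.card s + 1),
      cf s r * schur (Fin.cons ((k : ℤ) - r) lam : Fin (l + 1) → ℤ) (a ::ₘ s) =
      a ^ k * schur lam s := by
  -- the matrix with an arbitrary first row
  set R : (Fin (l + 1) → ℂ) → Matrix (Fin (l + 1)) (Fin (l + 1)) ℂ := fun x =>
    Matrix.of fun i j => (Fin.cons (x j) (fun i' : Fin l =>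
      hz (a ::ₘ s) (lam i' - ((i' : ℤ) + 1) + j)) : Fin (l + 1) → ℂ) i with hR
  have hRs : ∀ r : ℕ, schur (Fin.cons ((k : ℤ) - r) lam : Fin (l + 1) → ℤ) (a ::ₘ s) =
      (R fun j => hz (a ::ₘ s) ((k : ℤ) - r + j)).det := by
    intro r
    unfold schur
    congr 1
    ext i j
    rw [hR]
    simp only [Matrix.of_apply]
    refine Fin.cases ?_ (fun i' => ?_) i
    · simp only [Fin.cons_zero]
      congr 1
      simp
    · simp only [Fin.cons_succ]
      congr 1
  have hdet : ∀ x : Fin (l + 1) → ℂ, (R x).det = ∑ j : Fin (l + 1), (-1) ^ (j : ℕ) * x j *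
      ((R 0).submatrix Fin.succ j.succAbove).det := by
    intro x
    rw [Matrix.det_succ_row_zero]
    refine Finset.sum_congr rfl fun j _ => ?_
    congr 1
  have hsum : ∑ r ∈ Finset.range (Multiset.card s + 1),
      cf s r * (R fun j => hz (a ::ₘ s) ((k : ℤ) - r + j)).det =
      (R fun j : Fin (l + 1) => a ^ (k + (j : ℕ))).det := by
    simp only [hdet]
    simp only [Finset.mul_sum]
    rw [Finset.sum_comm]
    refine Finset.sum_congr rfl fun j _ => ?_
    have h1 := sum_cf a s hs (k + j)
    rw [← h1, Finset.mul_sum, Finset.sum_mul]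
    refine Finset.sum_congr rfl fun r _ => ?_
    have e : (k : ℤ) - r + j = ((k + (j : ℕ) : ℕ) : ℤ) - r := by
      push_cast; ring
    rw [e]
    ring
  simp only [hRs]
  rw [hsum]
  set B : Matrix (Fin (l + 1)) (Fin (l + 1)) ℂ := Matrix.of fun i j =>
    (Fin.cons (if j = 0 then a ^ k else 0) (fun i' : Fin l =>
      if j = 0 then hz (a ::ₘ s) (lam i' - ((i' : ℤ) + 1) + j) else
      hz s (lam i' - ((i' : ℤ) + 1) + j)) : Fin (l + 1) → ℂ) i with hB
  have hAB : (R fun j : Fin (l + 1) => a ^ (k + (j : ℕ))).det = B.det := by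
    refine Matrix.det_eq_of_forall_col_eq_smul_add_pred (fun _ => a) (fun i => ?_) fun i j => ?_
    · rw [hR, hB]
      simp only [Matrix.of_apply]
      refine Fin.cases ?_ (fun i' => ?_) i
      · simp
      · simp
    · rw [hR, hB]
      simp only [Matrix.of_apply]
      refine Fin.cases ?_ (fun i' => ?_) i
      · simp only [Fin.cons_zero, Fin.succ_ne_zero, if_false, Fin.val_succ, Fin.val_castSucc]
        ring
      · simp only [Fin.cons_succ, Fin.succ_ne_zero, if_false, Fin.val_succ, Fin.val_castSucc]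
        have h1 := hz_sub a s (lam i' - ((i' : ℤ) + 1) + ((j : ℕ) + 1 : ℕ))
        rw [← h1]
        have e : lam i' - ((i' : ℤ) + 1) + ((j : ℕ) + 1 : ℕ) - 1 = lam i' - ((i' : ℤ) + 1) + (j : ℕ) := by
          push_cast; ring
        rw [e]
        ring
  rw [hAB, Matrix.det_succ_row_zero, Fin.sum_univ_succ, Finset.sum_eq_zero]
  · rw [add_zero, hB]
    simp only [Matrix.of_apply, Fin.cons_zero, if_true, Fin.val_zero, pow_zero, one_mul]
    congr 1
    unfold schur
    congr 1
    ext i j
    simp only [Matrix.submatrix_apply, Matrix.of_apply, Fin.zero_succAbove, Fin.cons_succ,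
      Fin.succ_ne_zero, if_false, Fin.val_succ]
    congr 1
    push_cast
    ring
  · intro j _
    rw [hB]
    simp [Fin.succ_ne_zero]

/-- The box of all `lam` with `m i ≤ lam i ≤ m i + (n - 1 - i)`. -/
def box (n : ℕ) {l : ℕ} (m : Fin l → ℕ) : Finset (Fin l → ℕ) :=
  Fintype.piFinset fun i => Finset.Icc (m i) (m i + (n - 1 - i))

/-- `∏_{i < l} C(2(n - 1 - i), n - 1 - i)` -/
def wt (n l : ℕ) : ℕ := ∏ i : Fin l, (2 * (n - 1 - i)).choose (n - 1 - i)

theorem sum_box {n l : ℕ} (m : Fin (l + 1) → ℕ) (f : (Fin (l + 1) → ℕ) → ℝ) :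
    ∑ lam ∈ box (n + 1) m, f lam = ∑ mu ∈ box n (fun i => m i.succ),
      ∑ r ∈ Finset.range (n + 1), f (Fin.cons (m 0 + n - r) mu) := by
  rw [Finset.sum_comm' (t' := Finset.range (n + 1)) (s' := fun _ => box n fun i => m i.succ)
    (fun x y => by simp [and_comm])]
  rw [← Finset.sum_product' (Finset.range (n + 1)) (box n fun i => m i.succ)
    (fun r mu => f (Fin.cons (m 0 + n - r) mu))]
  symm
  refine Finset.sum_bij' (fun x _ => (Fin.cons (m 0 + n - x.1) x.2 : Fin (l + 1) → ℕ))
    (fun lam _ => (m 0 + n - lam 0, Fin.tail lam)) ?_ ?_ ?_ ?_ ?_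
  · intro x hx
    rw [Finset.mem_product, Finset.mem_range, box, Fintype.mem_piFinset] at hx
    rw [box, Fintype.mem_piFinset]
    intro i
    refine Fin.cases ?_ (fun i' => ?_) i
    · simp only [Fin.cons_zero, Finset.mem_Icc, Fin.val_zero]
      omega
    · have := hx.2 i'
      simp only [Fin.cons_succ, Finset.mem_Icc, Fin.val_succ] at this ⊢
      omega
  · intro lam hlam
    rw [box, Fintype.mem_piFinset] at hlam
    rw [Finset.mem_product, Finset.mem_range, box, Fintype.mem_piFinset]
    refine ⟨?_, fun i => ?_⟩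
    · have := hlam 0
      simp only [Finset.mem_Icc, Fin.val_zero] at this
      omega
    · have := hlam i.succ
      simp only [Finset.mem_Icc, Fin.val_succ] at this
      simp only [Finset.mem_Icc, Fin.tail]
      omega
  · intro x hx
    rw [Finset.mem_product, Finset.mem_range] at hx
    refine Prod.ext ?_ ?_
    · simp only [Fin.cons_zero]
      omega
    · simp
  · intro lam hlam
    rw [box, Fintype.mem_piFinset] at hlam
    have h0 := hlam 0
    simp only [Finset.mem_Icc, Fin.val_zero] at h0
    simp only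
    have e : m 0 + n - (m 0 + n - lam 0) = lam 0 := by omega
    rw [e]
    exact Fin.cons_self_tail lam
  · intro x _
    rfl

/-- **The inequality.**  For numbers of absolute value one the Schur functions of the partitions in
a box are not all small. -/
theorem box_ge {l : ℕ} : ∀ (s : Multiset ℂ), (∀ z ∈ s, ‖z‖ = 1) → l ≤ Multiset.card s →
    ∀ m : Fin l → ℕ, 1 ≤ (wt (Multiset.card s) l : ℝ) *
      ∑ lam ∈ box (Multiset.card s) m, ‖schur (fun i => (lam i : ℤ)) s‖ ^ 2 := by
  induction l with
  | zero =>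
    intro s _ _ m
    have h1 : box (Multiset.card s) m = {m} := by
      ext x
      rw [Finset.mem_singleton, box, Fintype.mem_piFinset]
      exact ⟨fun _ => Subsingleton.elim _ _, fun _ i => i.elim0⟩
    rw [h1, Finset.sum_singleton]
    unfold wt schur
    simp
  | succ l ih =>
    intro s hs hl m
    obtain ⟨a, ha'⟩ := Multiset.card_pos_iff_exists_mem.1 (show 0 < Multiset.card s by omega)
    obtain ⟨t, rfl⟩ := Multiset.exists_cons_of_mem ha'
    have ha : ‖a‖ = 1 := hs a (Multiset.mem_cons_self a t)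
    have ht : ∀ z ∈ t, ‖z‖ = 1 := fun z hz => hs z (Multiset.mem_cons_of_mem hz)
    rw [Multiset.card_cons] at hl ⊢
    have h1 := ih t ht (by omega) fun i => m i.succ
    rw [sum_box]
    have h2 : (wt (Multiset.card t + 1) (l + 1) : ℝ) =
        ((2 * Multiset.card t).choose (Multiset.card t) : ℝ) * wt (Multiset.card t) l := by
      unfold wt
      rw [Fin.prod_univ_succ]
      push_cast
      congr 1
      refine Finset.prod_congr rfl fun i _ => ?_
      simp only [Fin.val_succ]
      have e : Multiset.card t - ((i : ℕ) + 1) = Multiset.card t - 1 - i := by omega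
      rw [e]
    rw [h2, mul_comm ((2 * Multiset.card t).choose (Multiset.card t) : ℝ), mul_assoc]
    refine h1.trans (mul_le_mul_of_nonneg_left ?_ (Nat.cast_nonneg _))
    rw [Finset.mul_sum]
    refine Finset.sum_le_sum fun mu _ => ?_
    have h3 := schur_step (fun i => (mu i : ℤ)) a t (fun z hz => (ht z hz).le)
      (m 0 + Multiset.card t)
    have h4 : ‖schur (fun i => (mu i : ℤ)) t‖ = ‖∑ r ∈ Finset.range (Multiset.card t + 1),
        cf t r * schur (Fin.cons (((m 0 + Multiset.card t : ℕ) : ℤ) - r)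
          (fun i => (mu i : ℤ)) : Fin (l + 1) → ℤ) (a ::ₘ t)‖ := by
      rw [h3, norm_mul, norm_pow, ha, one_pow, one_mul]
    rw [h4]
    have h5 : ∀ r ∈ Finset.range (Multiset.card t + 1),
        (Fin.cons (((m 0 + Multiset.card t : ℕ) : ℤ) - r)
          (fun i => (mu i : ℤ)) : Fin (l + 1) → ℤ) =
        fun i => (((Fin.cons (m 0 + Multiset.card t - r) mu : Fin (l + 1) → ℕ) i : ℕ) : ℤ) := by
      intro r hr
      rw [Finset.mem_range] at hr
      funext i
      refine Fin.cases ?_ (fun i' => ?_) i
      · simp only [Fin.cons_zero]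
        omega
      · simp only [Fin.cons_succ]
    have h6 : ‖∑ r ∈ Finset.range (Multiset.card t + 1),
        cf t r * schur (Fin.cons (((m 0 + Multiset.card t : ℕ) : ℤ) - r)
          (fun i => (mu i : ℤ)) : Fin (l + 1) → ℤ) (a ::ₘ t)‖ ≤
        ∑ r ∈ Finset.range (Multiset.card t + 1), ((Multiset.card t).choose r : ℝ) *
          ‖schur (fun i => (((Fin.cons (m 0 + Multiset.card t - r) mu : Fin (l + 1) → ℕ) i : ℕ) : ℤ))
            (a ::ₘ t)‖ := by
      refine (norm_sum_le _ _).trans (Finset.sum_le_sum fun r hr => ?_)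
      rw [norm_mul, h5 r hr]
      exact mul_le_mul_of_nonneg_right (norm_cf t (fun z hz => (ht z hz).le) r) (norm_nonneg _)
    refine (pow_le_pow_left₀ (norm_nonneg _) h6 2).trans ?_
    refine (Finset.sum_mul_sq_le_sq_mul_sq _ _ _).trans (le_of_eq ?_)
    congr 1
    exact_mod_cast Nat.sum_range_choose_sq (Multiset.card t)

/-- homogeneity -/
theorem gen_scale (c : ℂ) (s : Multiset ℂ) (k : ℕ) :
    PowerSeries.coeff k (gen (s.map fun z => c * z)) = c ^ k * PowerSeries.coeff k (gen s) := by
  have h : gen (s.map fun z => c * z) = PowerSeries.rescale c (gen s) := by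
    unfold gen
    rw [map_multiset_prod, Multiset.map_map, Multiset.map_map]
    congr 1
    refine Multiset.map_congr rfl fun z _ => ?_
    ext n
    simp [mul_pow]
  rw [h, coeff_rescale]

theorem hz_scale {c : ℂ} (s : Multiset ℂ) (k : ℤ) :
    hz (s.map fun z => c * z) k = c ^ k * hz s k := by
  unfold hz
  split_ifs with h
  · rw [gen_scale]
    congr 1
    rw [← zpow_natCast, Int.toNat_of_nonneg h]
  · rw [mul_zero]

theorem schur_scale {c : ℂ} (hc : c ≠ 0) {l : ℕ} (lam : Fin l → ℤ) (s : Multiset ℂ) :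
    schur lam (s.map fun z => c * z) = c ^ (∑ i, lam i) * schur lam s := by
  unfold schur
  have e : (Matrix.of fun i j : Fin l => hz (s.map fun z => c * z) (lam i - i + j)) =
      Matrix.of fun i j : Fin l => (c ^ (lam i - i)) *
        (Matrix.of fun i j : Fin l => c ^ (j : ℕ) * (Matrix.of fun i j : Fin l =>
          hz s (lam i - i + j)) i j) i j := by
    ext i j
    simp only [Matrix.of_apply]
    rw [hz_scale, zpow_add₀ hc, zpow_natCast]
    ring
  rw [e, Matrix.det_mul_column, Matrix.det_mul_row, ← mul_assoc]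
  congr 1
  have e2 : ∏ j : Fin l, c ^ (j : ℕ) = c ^ (∑ j : Fin l, ((j : ℕ) : ℤ)) := by
    rw [← Nat.cast_sum, zpow_natCast, Finset.prod_pow_eq_pow_sum]
  have e3 : ∏ j : Fin l, c ^ (lam j - j) = c ^ (∑ j : Fin l, (lam j - j)) := by
    clear e e2
    induction (Finset.univ : Finset (Fin l)) using Finset.induction_on with
    | empty => simp
    | insert i s hi ih => rw [Finset.prod_insert hi, Finset.sum_insert hi, zpow_add₀ hc, ih]
  rw [e2, e3, ← zpow_add₀ hc, ← Finset.sum_add_distrib]
  congr 1
  refine Finset.sum_congr rfl fun i _ => ?_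
  ring

end Pool.Agent.N882.SP
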