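import Pool.Agent.N882.SP.Defs
import Pool.Agent.H341R2.EulerProd

/-! The size of an `L`-function of weight `0` at `s = 1` in terms of a sum over the primes.  (Adapted
from `Pool.Agent.Y149.CM.Size` and `Pool.Agent.Y149.PK.Size`.) -/

set_option autoImplicit false

open Finset Filter Topology Complex Polynomial

namespace Pool.Agent.N882.SP

open Pool.Agent.H341R2 (E K2 lam E_const_mul E_sum E_le E_nonneg E_add lam_tendsto
  lam_bounded w_nonneg tprod_split summable_and_bound norm_neg_log_sub_le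
  prime_rpow_le_two)

theorem abs_E_le {ε : ℝ} (hε : 0 < ε) {φ : Nat.Primes → ℝ} {B : ℝ} (hφ : ∀ p, |φ p| ≤ B) :
    |E ε φ| ≤ B * lam ε := by
  rw [abs_le]
  constructor
  · have h1 := E_le hε (φ := fun p => (-1) * φ p) (B := B) (fun p => by rw [neg_one_mul, abs_neg]; exact hφ p)
      (b := B) (fun p => by rw [neg_one_mul]; exact (neg_le_abs _).trans (hφ p))
    rw [E_const_mul] at h1
    linarith
  · exact E_le hε hφ fun p => (le_abs_self _).trans (hφ p)

theorem lam_pos : ∀ᶠ ε : ℝ in 𝓝[>] 0, 0 < lam ε := lam_tendsto.eventually_gt_atTop 0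

theorem E_one (ε : ℝ) : E ε (fun _ => 1) = lam ε := by
  unfold E lam
  exact tsum_congr fun p => one_mul _

theorem E_fin {φ : Nat.Primes → ℝ} {B : ℝ} (hφ : ∀ p, |φ p| ≤ B)
    (h : {p | φ p ≠ 0}.Finite) {ε : ℝ} (hε : 0 < ε) : |E ε φ| ≤ h.toFinset.card * B := by
  have e : E ε φ = ∑ p ∈ h.toFinset, φ p * (p : ℝ) ^ (-(1 + ε)) := by
    rw [E]
    refine tsum_eq_sum fun p hp => ?_
    have : φ p = 0 := by
      by_contra h0
      exact hp (h.mem_toFinset.2 h0)
    rw [this, zero_mul]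
  rw [e]
  refine (Finset.abs_sum_le_sum_abs _ _).trans ?_
  rw [← nsmul_eq_mul]
  refine Finset.sum_le_card_nsmul _ _ _ fun p _ => ?_
  have hp1 : (1 : ℝ) ≤ p := by exact_mod_cast p.2.one_lt.le
  have h2 : (p : ℝ) ^ (-(1 + ε)) ≤ 1 := Real.rpow_le_one_of_one_le_of_nonpos hp1 (by linarith)
  rw [abs_mul, abs_of_nonneg (w_nonneg ε p)]
  calc |φ p| * (p : ℝ) ^ (-(1 + ε)) ≤ |φ p| * 1 :=
        mul_le_mul_of_nonneg_left h2 (abs_nonneg _)
    _ ≤ B := by rw [mul_one]; exact hφ p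

/-- the norm of a sum over a multiset -/
theorem norm_msum (M : Multiset ℂ) (f : ℂ → ℂ) (C : ℝ) (h : ∀ z ∈ M, ‖f z‖ ≤ C) :
    ‖(M.map f).sum‖ ≤ Multiset.card M * C := by
  induction M using Multiset.induction_on with
  | empty => simp
  | cons a M ih =>
    rw [Multiset.map_cons, Multiset.sum_cons, Multiset.card_cons]
    refine (norm_add_le _ _).trans ?_
    have h1 := h a (Multiset.mem_cons_self a M)
    have h2 := ih fun z hz => h z (Multiset.mem_cons_of_mem hz)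
    push_cast
    linarith

/-- the logarithm of a local factor -/
theorem local_log (M : Multiset ℂ) (x : ℂ) (δ : ℝ) (h : ∀ α ∈ M, ‖α * x‖ ≤ δ) (hδ : δ ≤ 1 / 2) :
    Complex.exp ((M.map fun α => -Complex.log (1 - α * x)).sum) =
      ((M.map fun α => 1 - α * x).prod)⁻¹ ∧
    ‖(M.map fun α => -Complex.log (1 - α * x)).sum - M.sum * x‖ ≤ Multiset.card M * δ ^ 2 := by
  constructor
  · rw [Complex.exp_multiset_sum, Multiset.map_map, ← Multiset.prod_map_inv']
    rw [Multiset.map_map]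
    congr 1
    refine Multiset.map_congr rfl fun α hα => ?_
    simp only [Function.comp_apply]
    have hne : 1 - α * x ≠ 0 := by
      intro h0
      have h3 := (h α hα).trans hδ
      have h4 : α * x = 1 := (sub_eq_zero.1 h0).symm
      rw [h4, norm_one] at h3
      norm_num at h3
    rw [Complex.exp_neg, Complex.exp_log hne]
  · have e : (M.map fun α => -Complex.log (1 - α * x)).sum - M.sum * x =
        (M.map fun α => -Complex.log (1 - α * x) - α * x).sum := by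
      rw [Multiset.sum_map_sub, Multiset.sum_map_mul_right, Multiset.map_id']
    rw [e]
    refine norm_msum M _ _ fun α hα => ?_
    have h1 := h α hα
    refine (norm_neg_log_sub_le (h1.trans hδ)).trans ?_
    exact pow_le_pow_left₀ (norm_nonneg _) h1 2

/-- **The size lemma.** -/
theorem log_gen {δ : Nat.Primes → Multiset ℂ} {B : Nat.Primes → ℂ[X]}
    (hB : IsEuler δ B) {Mb : ℕ} (hw : ∀ᶠ p : Nat.Primes in cofinite,
      (∀ z ∈ δ p, ‖z‖ = 1) ∧ Multiset.card (δ p) ≤ Mb)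
    {φ : Nat.Primes → ℝ} {C0 : ℝ} (hφ : ∀ p, |φ p| ≤ C0)
    (he : ∀ᶠ p : Nat.Primes in cofinite, φ p = ((δ p).sum).re) :
    ∃ C : ℝ, ∀ᶠ ε : ℝ in 𝓝[>] 0, LFun B (1 + ε) ≠ 0 ∧
      |Real.log ‖LFun B (1 + ε)‖ - E ε φ| ≤ C := by
  classical
  set Good : Nat.Primes → Prop := fun p => ((∀ z ∈ δ p, ‖z‖ = 1) ∧
    Multiset.card (δ p) ≤ Mb) ∧ φ p = ((δ p).sum).re ∧
    ∀ z : ℂ, (B p).eval z = ((δ p).map fun α => 1 - α * z).prod with hGood
  have hev : ∀ᶠ p : Nat.Primes in cofinite, Good p := by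
    filter_upwards [hw, he, hB.1] with p h1 h2 h3
    exact ⟨h1, h2, h3⟩
  have hfin : {p | ¬ Good p}.Finite := eventually_cofinite.1 hev
  -- the bad factors
  have hbad : ∃ C : ℝ, ∀ᶠ ε : ℝ in 𝓝[>] 0, (∀ p ∈ hfin.toFinset,
      ((B p).eval (((p : ℕ) : ℂ) ^ (-(1 + (ε : ℂ))))) ≠ 0) ∧
      |∑ p ∈ hfin.toFinset,
        Real.log ‖((B p).eval (((p : ℕ) : ℂ) ^ (-(1 + (ε : ℂ)))))⁻¹‖| ≤ C := by
    have hcont : ∀ p : Nat.Primes, Tendsto (fun ε : ℝ =>
        (B p).eval (((p : ℕ) : ℂ) ^ (-(1 + (ε : ℂ))))) (𝓝[>] 0)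
        (𝓝 ((B p).eval (((p : ℕ) : ℂ) ^ (-1 : ℂ)))) := by
      intro p
      have hpc : ((p : ℕ) : ℂ) ≠ 0 := by exact_mod_cast p.2.ne_zero
      have h1 : Continuous fun ε : ℝ => (B p).eval (((p : ℕ) : ℂ) ^ (-(1 + (ε : ℂ)))) := by
        refine (B p).continuous.comp ?_
        refine Continuous.const_cpow (by fun_prop) (Or.inl hpc)
      have h2 := h1.tendsto 0
      simp only [Complex.ofReal_zero, add_zero] at h2
      exact h2.mono_left nhdsWithin_le_nhds
    have h1 : ∀ᶠ ε : ℝ in 𝓝[>] 0, ∀ p ∈ hfin.toFinset,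
        ((B p).eval (((p : ℕ) : ℂ) ^ (-(1 + (ε : ℂ))))) ≠ 0 := by
      rw [Filter.eventually_all_finset]
      intro p _
      exact (hcont p).eventually_ne (hB.2 p)
    have h2 : Tendsto (fun ε : ℝ => |∑ p ∈ hfin.toFinset,
        Real.log ‖((B p).eval (((p : ℕ) : ℂ) ^ (-(1 + (ε : ℂ)))))⁻¹‖|) (𝓝[>] 0)
        (𝓝 (|∑ p ∈ hfin.toFinset,
        Real.log ‖((B p).eval (((p : ℕ) : ℂ) ^ (-1 : ℂ)))⁻¹‖|)) := by
      refine (tendsto_finsetSum _ fun p _ => ?_).abs
      refine (((hcont p).inv₀ (hB.2 p)).norm).log ?_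
      exact norm_ne_zero_iff.2 (inv_ne_zero (hB.2 p))
    obtain ⟨C, hC⟩ := h2.isBoundedUnder_le
    exact ⟨C, h1.and (Filter.eventually_map.1 hC)⟩
  obtain ⟨Cb, hCb⟩ := hbad
  -- the traces
  set aa : Nat.Primes → ℂ := fun p => if Good p then (δ p).sum else 0 with haa
  have hMb : ∀ p, Good p → ‖(δ p).sum‖ ≤ Mb := by
    intro p hp
    have h3 := norm_msum (δ p) (fun z => z) 1 (fun z hz => (hp.1.1 z hz).le)
    rw [Multiset.map_id', mul_one] at h3
    refine h3.trans ?_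
    exact_mod_cast hp.1.2
  have haab : ∀ p, ‖aa p‖ ≤ Mb := by
    intro p
    rw [haa]
    simp only
    split_ifs with h
    · exact hMb p h
    · simp
  have hd : {p | (φ p - (aa p).re) ≠ 0}.Finite := by
    refine hfin.subset ?_
    intro p hp
    by_contra h
    apply hp
    have h' : Good p := not_not.1 h
    rw [haa]
    simp only
    rw [if_pos h', h'.2.1, sub_self]
  have hdb : ∀ p, |φ p - (aa p).re| ≤ C0 + Mb := fun p =>
    (abs_sub _ _).trans (add_le_add (hφ p) ((Complex.abs_re_le_norm _).trans (haab p)))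
  have haab' : ∀ p, |(aa p).re| ≤ Mb := fun p => (Complex.abs_re_le_norm _).trans (haab p)
  refine ⟨Cb + |(Mb : ℝ)| * K2 + hd.toFinset.card * (C0 + Mb), ?_⟩
  filter_upwards [hCb, self_mem_nhdsWithin] with ε hb hε'
  have hε : (0 : ℝ) < ε := hε'
  set s : ℂ := 1 + (ε : ℂ) with hs
  have hsre : s.re = 1 + ε := by
    rw [hs, Complex.add_re, Complex.ofReal_re, Complex.one_re]
  set G : Nat.Primes → ℂ := fun p =>
    ((δ p).map fun α => -Complex.log (1 - α * ((p : ℕ) : ℂ) ^ (-s))).sum with hG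
  have hloc : ∀ p, Good p → cexp (G p) = ((B p).eval (((p : ℕ) : ℂ) ^ (-s)))⁻¹ ∧
      ‖G p - aa p * ((p : ℝ) ^ (-(1 + ε)) : ℝ)‖ ≤ Mb * (p : ℝ) ^ (-2 : ℝ) := by
    intro p hp
    have hp0 : (0 : ℝ) < (p : ℕ) := by exact_mod_cast p.2.pos
    have hp1 : (1 : ℝ) ≤ (p : ℕ) := by exact_mod_cast p.2.one_lt.le
    have hpc : ((p : ℕ) : ℂ) ≠ 0 := by exact_mod_cast p.2.ne_zero
    have hx : ‖((p : ℕ) : ℂ) ^ (-s)‖ = ((p : ℕ) : ℝ) ^ (-(1 + ε)) := by
      rw [Complex.norm_natCast_cpow_of_pos p.2.pos, Complex.neg_re, hsre]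
    have hδ : ∀ α ∈ δ p, ‖α * ((p : ℕ) : ℂ) ^ (-s)‖ ≤ ((p : ℕ) : ℝ) ^ (-(1 + ε)) := by
      intro α hα
      rw [norm_mul, hp.1.1 α hα, hx, one_mul]
    obtain ⟨h1, h2⟩ := local_log (δ p) (((p : ℕ) : ℂ) ^ (-s)) _ hδ
      (prime_rpow_le_two (by linarith))
    refine ⟨?_, ?_⟩
    · rw [hG]
      simp only
      rw [h1, hp.2.2]
    · have h3 : aa p * ((p : ℝ) ^ (-(1 + ε)) : ℝ) = (δ p).sum * ((p : ℕ) : ℂ) ^ (-s) := by
        rw [haa]
        simp only
        rw [if_pos hp, Complex.ofReal_cpow hp0.le]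
        push_cast
        rfl
      rw [h3]
      refine h2.trans ?_
      have h4 : (((p : ℕ) : ℝ) ^ (-(1 + ε))) ^ 2 ≤ ((p : ℕ) : ℝ) ^ (-2 : ℝ) := by
        rw [← Real.rpow_natCast, ← Real.rpow_mul hp0.le]
        refine Real.rpow_le_rpow_of_exponent_le hp1 ?_
        push_cast
        linarith
      have h5 : (Multiset.card (δ p) : ℝ) ≤ Mb := by
        exact_mod_cast hp.1.2
      exact mul_le_mul h5 h4 (by positivity) (by positivity)
  obtain ⟨hsum, hbd⟩ := summable_and_bound (Good := Good) hε G aa (C := Mb) (K := Mb) haab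
    (fun p hp => by rw [haa]; simp only; rw [if_neg hp]) (fun p hp => (hloc p hp).2)
  have hprod := tprod_split hfin G (fun p => ((B p).eval (((p : ℕ) : ℂ) ^ (-s)))⁻¹) hsum
  have hL : LFun B s = (∏ p ∈ hfin.toFinset, ((B p).eval (((p : ℕ) : ℂ) ^ (-s)))⁻¹) *
      cexp (∑' p, if Good p then G p else 0) := by
    rw [← hprod, LFun]
    refine tprod_congr fun p => ?_
    split_ifs with h
    · rw [(hloc p h).1]
    · rfl
  refine ⟨?_, ?_⟩
  · rw [hL]
    exact mul_ne_zero (Finset.prod_ne_zero_iff.2 fun p hp => inv_ne_zero (hb.1 p hp))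
      (Complex.exp_ne_zero _)
  have hlog : Real.log ‖LFun B s‖ = ∑ p ∈ hfin.toFinset,
        Real.log ‖((B p).eval (((p : ℕ) : ℂ) ^ (-s)))⁻¹‖ +
        (∑' p, if Good p then G p else 0).re := by
    rw [hL, norm_mul, Complex.norm_exp, Real.log_mul, Real.log_exp, norm_prod, Real.log_prod]
    · intro p hp
      exact norm_ne_zero_iff.2 (inv_ne_zero (hb.1 p hp))
    · rw [norm_prod]
      exact Finset.prod_ne_zero_iff.2 fun p hp => norm_ne_zero_iff.2 (inv_ne_zero (hb.1 p hp))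
    · exact (Real.exp_pos _).ne'
  have hsplit : E ε φ = E ε (fun p => (aa p).re) + E ε (fun p => φ p - (aa p).re) := by
    rw [← E_add hε haab' hdb]
    congr 1
    funext p
    ring
  have h6 := E_fin hdb hd hε
  rw [hlog, hsplit]
  have h7 := hb.2
  rw [abs_le] at *
  constructor <;> linarith [hbd.1, hbd.2, h6.1, h6.2, h7.1, h7.2]

theorem log_inv_tendsto : Tendsto (fun ε : ℝ => Real.log (1 / ε)) (𝓝[>] 0) atTop := by
  have h1 : (fun ε : ℝ => Real.log (1 / ε)) = fun ε => -Real.log ε := by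
    funext ε
    rw [one_div, Real.log_inv]
  rw [h1]
  exact tendsto_neg_atBot_atTop.comp Real.tendsto_log_nhdsGT_zero

/-- the order in terms of the logarithm -/
theorem order_log {B : Nat.Primes → ℂ[X]} {r : ℤ} (h : HasOrder B r) :
    ∃ C : ℝ, ∀ᶠ ε : ℝ in 𝓝[>] 0,
      |Real.log ‖LFun B (1 + ε)‖ + r * Real.log (1 / ε)| ≤ C := by
  obtain ⟨a, ha, hlim⟩ := h
  have h1 := (hlim.norm.log (norm_ne_zero_iff.2 ha)).abs
  have h2 := hlim.eventually_ne ha
  refine ⟨|Real.log ‖a‖| + 1, ?_⟩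
  filter_upwards [h1.eventually_lt_const (lt_add_one _), h2, self_mem_nhdsWithin] with ε h3 h4 h5
  have hε : (0 : ℝ) < ε := h5
  have hL : LFun B (1 + ε) ≠ 0 := right_ne_zero_of_mul h4
  have hz : (ε : ℂ) ^ (-r) ≠ 0 := left_ne_zero_of_mul h4
  rw [norm_mul, Real.log_mul (norm_ne_zero_iff.2 hz) (norm_ne_zero_iff.2 hL), norm_zpow,
    Complex.norm_real, Real.norm_of_nonneg hε.le, Real.log_zpow] at h3
  rw [one_div, Real.log_inv]
  refine le_of_eq_of_le ?_ h3.le
  congr 1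
  push_cast
  ring

theorem lam_log : Tendsto (fun ε : ℝ => lam ε / Real.log (1 / ε)) (𝓝[>] 0) (𝓝 1) := by
  obtain ⟨C, hC⟩ := lam_bounded
  have h1 : Tendsto (fun ε : ℝ => C / Real.log (1 / ε)) (𝓝[>] 0) (𝓝 0) :=
    log_inv_tendsto.const_div_atTop C
  rw [tendsto_iff_dist_tendsto_zero]
  refine squeeze_zero' (Filter.Eventually.of_forall fun _ => dist_nonneg) ?_ h1
  filter_upwards [hC, log_inv_tendsto.eventually_gt_atTop 0] with ε g1 g2
  rw [Real.dist_eq]
  have e1 : Real.log (1 / ε) = -Real.log ε := by rw [one_div, Real.log_inv]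
  have e2 : lam ε / Real.log (1 / ε) - 1 = (lam ε + Real.log ε) / Real.log (1 / ε) := by
    rw [div_sub_one g2.ne', e1]
    congr 1
    ring
  rw [e2, abs_div, abs_of_pos g2]
  exact div_le_div_of_nonneg_right g1 g2.le

/-- the size is the limit of the order -/
theorem size_order {B : Nat.Primes → ℂ[X]} {r : ℤ} (hr : HasOrder B (-r)) :
    Tendsto (fun ε : ℝ => size B ε) (𝓝[>] 0) (𝓝 r) := by
  obtain ⟨C, hC⟩ := order_log hr
  have h1 : Tendsto (fun ε : ℝ => C / Real.log (1 / ε)) (𝓝[>] 0) (𝓝 0) :=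
    log_inv_tendsto.const_div_atTop C
  rw [tendsto_iff_dist_tendsto_zero]
  refine squeeze_zero' (Filter.Eventually.of_forall fun _ => dist_nonneg) ?_ h1
  filter_upwards [hC, log_inv_tendsto.eventually_gt_atTop 0] with ε g1 g2
  rw [Real.dist_eq]
  have e1 : size B ε - r = (Real.log ‖LFun B (1 + ε)‖ +
      ((-r : ℤ) : ℝ) * Real.log (1 / ε)) / Real.log (1 / ε) := by
    unfold size
    rw [add_div, mul_div_assoc, div_self g2.ne']
    push_cast
    ring
  rw [e1, abs_div, abs_of_pos g2]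
  exact div_le_div_of_nonneg_right g1 g2.le

end Pool.Agent.N882.SP
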